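import Mathlib

set_option autoImplicit false

namespace Pool.Agent.H676Z.KPP

open Real

/-- The explicit front. -/
noncomputable def front (m : ℕ) (p : EuclideanSpace ℝ (Fin (m + 1)) × ℝ) : ℝ :=
  Real.sigmoid (Real.sqrt 2 / 2 * p.1 (Fin.last m) + 3 / 2 * p.2)

noncomputable def lin (m : ℕ) : EuclideanSpace ℝ (Fin (m + 1)) →L[ℝ] ℝ :=
  (Real.sqrt 2 / 2 : ℝ) • (EuclideanSpace.proj (Fin.last m) : EuclideanSpace ℝ (Fin (m + 1)) →L[ℝ] ℝ)

lemma lin_apply (m : ℕ) (x : EuclideanSpace ℝ (Fin (m + 1))) :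
    lin m x = Real.sqrt 2 / 2 * x (Fin.last m) := by
  simp [lin]

lemma slice_eq (m : ℕ) (t : ℝ) :
    (fun y => front m (y, t)) = (fun s => Real.sigmoid (s + 3 / 2 * t)) ∘ (lin m) := by
  funext y
  simp [front, lin_apply]

lemma contDiff_shift (c : ℝ) : ContDiff ℝ 2 (fun s : ℝ => Real.sigmoid (s + c)) := by
  have h : ContDiff ℝ 2 Real.sigmoid := contDiff_sigmoid.of_le le_top
  exact h.comp (contDiff_id.add contDiff_const)

lemma hasDeriv_shift (c s : ℝ) : HasDerivAt (fun s : ℝ => Real.sigmoid (s + c))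
    (Real.sigmoid (s + c) * (1 - Real.sigmoid (s + c))) s := by
  have h := (Real.hasDerivAt_sigmoid (s + c)).comp s ((hasDerivAt_id s).add_const c)
  rw [mul_one] at h
  exact h

lemma deriv_shift (c : ℝ) : deriv (fun s : ℝ => Real.sigmoid (s + c)) =
    fun s => Real.sigmoid (s + c) * (1 - Real.sigmoid (s + c)) := by
  funext s
  exact (hasDeriv_shift c s).deriv

lemma iter2_shift (c s : ℝ) : iteratedDeriv 2 (fun s : ℝ => Real.sigmoid (s + c)) s =
    Real.sigmoid (s + c) * (1 - Real.sigmoid (s + c)) * (1 - 2 * Real.sigmoid (s + c)) := by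
  rw [iteratedDeriv_succ, iteratedDeriv_one, deriv_shift]
  have h := (hasDeriv_shift c s).mul ((hasDeriv_shift c s).const_sub 1)
  have h2 := h.deriv
  have e : (fun s => Real.sigmoid (s + c) * (1 - Real.sigmoid (s + c))) =
      ((fun s : ℝ => Real.sigmoid (s + c)) * fun s : ℝ => 1 - Real.sigmoid (s + c)) := by
    funext s; simp
  rw [e, h2]
  ring

lemma contDiff_front (m : ℕ) : ContDiff ℝ 2 (front m) := by
  have h : ContDiff ℝ 2 Real.sigmoid := contDiff_sigmoid.of_le le_top
  have e : front m = Real.sigmoid ∘ (fun p : EuclideanSpace ℝ (Fin (m + 1)) × ℝ =>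
      lin m p.1 + 3 / 2 * p.2) := by
    funext p; simp [front, lin_apply]
  rw [e]
  exact h.comp (((lin m).contDiff.comp contDiff_fst).add (contDiff_const.mul contDiff_snd))

lemma lap (m : ℕ) (x : EuclideanSpace ℝ (Fin (m + 1))) (t : ℝ) :
    (∑ i : Fin (m + 1), iteratedFDeriv ℝ 2 (fun y => front m (y, t)) x
          (fun _ => EuclideanSpace.single i (1 : ℝ))) =
      1 / 2 * (front m (x, t) * (1 - front m (x, t)) * (1 - 2 * front m (x, t))) := by
  rw [slice_eq, (lin m).iteratedFDeriv_comp_right (contDiff_shift _) x le_rfl]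
  simp only [ContinuousMultilinearMap.compContinuousLinearMap_apply,
    iteratedFDeriv_apply_eq_iteratedDeriv_mul_prod, iter2_shift, Finset.prod_const,
    Finset.card_univ, Fintype.card_fin, smul_eq_mul, lin_apply]
  rw [← Finset.sum_mul]
  have hs : (∑ i : Fin (m + 1), (Real.sqrt 2 / 2 *
      (EuclideanSpace.single i (1 : ℝ) : EuclideanSpace ℝ (Fin (m + 1))) (Fin.last m)) ^ 2) = 1 / 2 := by
    rw [Finset.sum_eq_single (Fin.last m)]
    · have : Real.sqrt 2 ^ 2 = 2 := Real.sq_sqrt (by norm_num)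
      simp
      nlinarith
    · intro b _ hb
      simp [Ne.symm hb]
    · simp
  rw [hs]
  rfl

lemma dt (m : ℕ) (x : EuclideanSpace ℝ (Fin (m + 1))) (t : ℝ) :
    deriv (fun s => front m (x, s)) t = 3 / 2 * (front m (x, t) * (1 - front m (x, t))) := by
  have h1 : HasDerivAt (fun s : ℝ => Real.sqrt 2 / 2 * x (Fin.last m) + 3 / 2 * s) (3 / 2) t := by
    simpa using ((hasDerivAt_id t).const_mul (3 / 2 : ℝ)).const_add
      (Real.sqrt 2 / 2 * x (Fin.last m))
  have h := (Real.hasDerivAt_sigmoid (Real.sqrt 2 / 2 * x (Fin.last m) + 3 / 2 * t)).comp t h1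
  have h2 := h.deriv
  have e : (fun s => front m (x, s)) =
      Real.sigmoid ∘ (fun s : ℝ => Real.sqrt 2 / 2 * x (Fin.last m) + 3 / 2 * s) := by
    funext s; simp [front]
  rw [e, h2]
  simp only [front]
  ring

lemma dx (m : ℕ) (x : EuclideanSpace ℝ (Fin (m + 1))) (t : ℝ) :
    fderiv ℝ (fun y => front m (y, t)) x (EuclideanSpace.single (Fin.last m) (1 : ℝ)) =
      Real.sqrt 2 / 2 * (front m (x, t) * (1 - front m (x, t))) := by
  rw [slice_eq]
  have h := ((hasDeriv_shift (3 / 2 * t) (lin m x)).hasFDerivAt.comp x (lin m).hasFDerivAt).fderiv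
  rw [h]
  simp [lin_apply, front]

theorem admissible (m : ℕ) (x : EuclideanSpace ℝ (Fin (m + 1))) (t : ℝ) :
      |front m (x, t)| ≤ 1 ∧
      (∑ i : Fin (m + 1), iteratedFDeriv ℝ 2 (fun y => front m (y, t)) x
          (fun _ => EuclideanSpace.single i (1 : ℝ)))
        - deriv (fun s => front m (x, s)) t = front m (x, t) ^ 3 - front m (x, t) ∧
      0 < fderiv ℝ (fun y => front m (y, t)) x (EuclideanSpace.single (Fin.last m) (1 : ℝ)) ∧
      0 < deriv (fun s => front m (x, s)) t := by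
  have h0 : 0 < front m (x, t) := Real.sigmoid_pos _
  have h1 : front m (x, t) < 1 := Real.sigmoid_lt_one _
  have h2 : 0 < front m (x, t) * (1 - front m (x, t)) := mul_pos h0 (by linarith)
  refine ⟨abs_le.mpr ⟨by linarith, h1.le⟩, ?_, ?_, ?_⟩
  · rw [lap, dt]; ring
  · rw [dx]; positivity
  · rw [dt]; positivity

theorem not_stationary (m : ℕ) :
    front m (0, -1) ≠ front m (0, -2) := by
  simp only [front]
  intro h
  have := Real.sigmoid_injective h
  norm_num at this

end Pool.Agent.H676Z.KPP
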